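import Pool.Agent.W586.SK.Stm

/-!
# Project SK, part BAS: stability of the class `Sy`
-/

set_option autoImplicit false

namespace Pool.Agent.W108.SK

open MeasureTheory Set
open Pool.Agent.W586.SK

theorem sy_indicator {n : ℕ} (ρ : E n → ℝ) (h : Sy ρ) (S : Set (E n)) (hc : Convex ℝ S)
    (hm : MeasurableSet S)
    (hi : ∀ σ : Equiv.Perm (Fin n), ∀ x y : E n, (∀ i, |y i| = |x (σ i)|) → (y ∈ S ↔ x ∈ S)) :
    Sy (S.indicator ρ) := by
  have hnn : ∀ x, 0 ≤ S.indicator ρ x := fun x => Set.indicator_nonneg (fun y _ => h.nonneg y) x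
  refine ⟨hnn, h.meas.indicator hm, ?_, ?_⟩
  · intro x y t ht0 ht1
    by_cases hx : x ∈ S
    · by_cases hy : y ∈ S
      · have hxy : (1 - t) • x + t • y ∈ S :=
          hc hx hy (by linarith) (by linarith) (by ring)
        rw [Set.indicator_of_mem hx, Set.indicator_of_mem hy, Set.indicator_of_mem hxy]
        exact h.logc x y t ht0 ht1
      · rw [Set.indicator_of_notMem hy, Real.zero_rpow (by linarith), mul_zero]
        exact hnn _
    · rw [Set.indicator_of_notMem hx, Real.zero_rpow (by linarith), zero_mul]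
      exact hnn _
  · intro σ x y hxy
    by_cases hx : x ∈ S
    · rw [Set.indicator_of_mem hx, Set.indicator_of_mem ((hi σ x y hxy).2 hx)]
      exact h.inv σ x y hxy
    · rw [Set.indicator_of_notMem hx, Set.indicator_of_notMem (fun hy => hx ((hi σ x y hxy).1 hy))]

theorem nm_inv {n : ℕ} (σ : Equiv.Perm (Fin n)) (x y : E n) (hxy : ∀ i, |y i| = |x (σ i)|) :
    nm y = nm x := by
  unfold nm
  rw [Finset.sum_congr rfl fun i _ => hxy i]
  exact Equiv.sum_comp σ fun i => |x i|

theorem norm_inv {n : ℕ} (σ : Equiv.Perm (Fin n)) (x y : E n) (hxy : ∀ i, |y i| = |x (σ i)|) :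
    ‖y‖ = ‖x‖ := by
  rw [EuclideanSpace.norm_eq, EuclideanSpace.norm_eq]
  congr 1
  rw [← Equiv.sum_comp σ fun i => ‖x i‖ ^ 2]
  refine Finset.sum_congr rfl fun i _ => ?_
  rw [Real.norm_eq_abs, Real.norm_eq_abs, hxy i]

theorem continuous_nm {n : ℕ} : Continuous (nm : E n → ℝ) := by
  unfold nm
  refine continuous_finsetSum _ fun j _ => ?_
  exact (EuclideanSpace.proj (𝕜 := ℝ) j).continuous.abs

theorem convex_nm {n : ℕ} (r : ℝ) : Convex ℝ {x : E n | nm x ≤ r} := by
  intro x hx y hy a b ha hb hab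
  simp only [Set.mem_ofPred_eq] at hx hy ⊢
  have h1 : nm (a • x + b • y) ≤ a * nm x + b * nm y := by
    unfold nm
    rw [Finset.mul_sum, Finset.mul_sum, ← Finset.sum_add_distrib]
    refine Finset.sum_le_sum fun j _ => ?_
    have : (a • x + b • y) j = a * x j + b * y j := by simp
    rw [this]
    calc |a * x j + b * y j| ≤ |a * x j| + |b * y j| := abs_add_le _ _
      _ = a * |x j| + b * |y j| := by rw [abs_mul, abs_mul, abs_of_nonneg ha, abs_of_nonneg hb]
  calc nm (a • x + b • y) ≤ a * nm x + b * nm y := h1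
    _ ≤ a * r + b * r := add_le_add (mul_le_mul_of_nonneg_left hx ha)
        (mul_le_mul_of_nonneg_left hy hb)
    _ = r := by rw [← add_mul, hab, one_mul]

theorem bas : S_BAS := by
  intro n ρ h
  refine ⟨?_, ?_, ?_⟩
  · intro r
    refine sy_indicator ρ h _ (convex_nm r) ?_ ?_
    · exact (isClosed_le continuous_nm continuous_const).measurableSet
    · intro σ x y hxy
      simp only [Set.mem_ofPred_eq]
      rw [nm_inv σ x y hxy]
  · intro r
    refine sy_indicator ρ h _ ?_ ?_ ?_
    · have : {x : E n | ‖x‖ ≤ r} = Metric.closedBall 0 r := by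
        ext x
        simp
      rw [this]
      exact convex_closedBall 0 r
    · exact (isClosed_le continuous_norm continuous_const).measurableSet
    · intro σ x y hxy
      simp only [Set.mem_ofPred_eq]
      rw [norm_inv σ x y hxy]
  · intro c hc
    refine ⟨fun x => mul_nonneg hc (h.nonneg x), h.meas.const_mul c, ?_, ?_⟩
    · intro x y t ht0 ht1
      have h1 := h.logc x y t ht0 ht1
      rw [Real.mul_rpow hc (h.nonneg x), Real.mul_rpow hc (h.nonneg y)]
      rcases hc.eq_or_lt with h0 | h0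
      · subst h0
        rw [Real.zero_rpow (by linarith), Real.zero_rpow (by linarith)]
        simp
      · have h2 : c ^ (1 - t) * c ^ t = c := by
          rw [← Real.rpow_add h0]
          norm_num
        calc c ^ (1 - t) * ρ x ^ (1 - t) * (c ^ t * ρ y ^ t)
            = (c ^ (1 - t) * c ^ t) * (ρ x ^ (1 - t) * ρ y ^ t) := by ring
          _ = c * (ρ x ^ (1 - t) * ρ y ^ t) := by rw [h2]
          _ ≤ c * ρ ((1 - t) • x + t • y) := mul_le_mul_of_nonneg_left h1 hc
    · intro σ x y hxy
      show c * ρ y = c * ρ x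
      rw [h.inv σ x y hxy]

end Pool.Agent.W108.SK
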